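import Mathlib

/-!
# 2-adically Lipschitz sequences and the doubling operator
-/

namespace Q263.BP

open Finset

/-- `f` is 2-adically 1-Lipschitz on the integers at least `s`. -/
def Lip (s : ℕ) (f : ℕ → ℤ) : Prop := ∀ t x : ℕ, s ≤ x → (2 : ℤ) ^ t ∣ f (x + 2 ^ t) - f x

lemma Lip.mono {s s' : ℕ} {f : ℕ → ℤ} (h : Lip s f) (hs : s ≤ s') : Lip s' f :=
  fun t x hx => h t x (hs.trans hx)

lemma Lip.const (s : ℕ) (c : ℤ) : Lip s (fun _ => c) := fun t x _ => by simp

lemma Lip.add {s : ℕ} {f g : ℕ → ℤ} (hf : Lip s f) (hg : Lip s g) :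
    Lip s (fun n => f n + g n) := fun t x hx => by
  have := dvd_add (hf t x hx) (hg t x hx)
  have e : f (x + 2 ^ t) + g (x + 2 ^ t) - (f x + g x) =
    f (x + 2 ^ t) - f x + (g (x + 2 ^ t) - g x) := by ring
  simpa only [e] using this

lemma Lip.cmul {s : ℕ} {f : ℕ → ℤ} (hf : Lip s f) (c : ℤ) :
    Lip s (fun n => c * f n) := fun t x hx => by
  have := (hf t x hx).mul_left c
  have e : c * f (x + 2 ^ t) - c * f x = c * (f (x + 2 ^ t) - f x) := by ring
  simpa only [e] using this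

lemma Lip.congr {s : ℕ} {f g : ℕ → ℤ} (hf : Lip s f) (h : ∀ n, s ≤ n → g n = f n) : Lip s g :=
  fun t x hx => by
  rw [h _ (hx.trans (Nat.le_add_right _ _)), h _ hx]
  exact hf t x hx

/-- The sum over a full period is almost divisible by the period. -/
lemma period {s s' : ℕ} {f h : ℕ → ℤ} (hf : Lip s f) (hh : Lip s' h) (t : ℕ) :
    ∀ x y : ℕ, s ≤ x → s' ≤ y →
      (2 : ℤ) ^ t ∣ 2 * ∑ u ∈ range (2 ^ t), f (x + u) * h (y + (2 ^ t - 1 - u)) := by
  induction t with
  | zero => intro x y _ _; simp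
  | succ t ih =>
    intro x y hx hy
    have e1 : ∑ u ∈ range (2 ^ (t + 1)), f (x + u) * h (y + (2 ^ (t + 1) - 1 - u)) =
        ∑ u ∈ range (2 ^ t), f (x + u) * h (y + (2 ^ t - 1 - u) + 2 ^ t) +
        ∑ u ∈ range (2 ^ t), f (x + u + 2 ^ t) * h (y + (2 ^ t - 1 - u)) := by
      rw [pow_succ, mul_two, sum_range_add]
      congr 1
      · apply sum_congr rfl
        intro u hu
        rw [mem_range] at hu
        congr 2
        omega
      · apply sum_congr rfl
        intro u hu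
        rw [mem_range] at hu
        congr 2 <;> omega
    obtain ⟨S, hS⟩ := ih x y hx hy
    have d1 : (2 : ℤ) ^ t ∣ ∑ u ∈ range (2 ^ t), f (x + u) * h (y + (2 ^ t - 1 - u) + 2 ^ t) -
        ∑ u ∈ range (2 ^ t), f (x + u) * h (y + (2 ^ t - 1 - u)) := by
      rw [← sum_sub_distrib]
      apply dvd_sum
      intro u _
      rw [← mul_sub]
      exact (hh t _ (by omega)).mul_left _
    have d2 : (2 : ℤ) ^ t ∣ ∑ u ∈ range (2 ^ t), f (x + u + 2 ^ t) * h (y + (2 ^ t - 1 - u)) -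
        ∑ u ∈ range (2 ^ t), f (x + u) * h (y + (2 ^ t - 1 - u)) := by
      rw [← sum_sub_distrib]
      apply dvd_sum
      intro u _
      rw [← sub_mul]
      exact (hf t _ (by omega)).mul_right _
    rw [e1]
    obtain ⟨a, ha⟩ := d1
    obtain ⟨b, hb⟩ := d2
    refine ⟨a + b + S, ?_⟩
    rw [pow_succ]
    linear_combination 2 * ha + 2 * hb + 2 * hS

/-- Convolution sums. -/
lemma lip_conv {s : ℕ} {p f : ℕ → ℤ} (hp : Lip s p) (hf : Lip 1 f) :
    Lip s (fun i => 2 * ∑ j ∈ Ico s i, p j * f (i - j)) := by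
  intro t x hx
  have e : ∑ j ∈ Ico s (x + 2 ^ t), p j * f (x + 2 ^ t - j) =
      ∑ j ∈ Ico s x, p j * f (x - j + 2 ^ t) +
      ∑ u ∈ range (2 ^ t), p (x + u) * f (1 + (2 ^ t - 1 - u)) := by
    rw [← sum_Ico_consecutive _ hx (Nat.le_add_right x (2 ^ t))]
    congr 1
    · apply sum_congr rfl
      intro j hj
      rw [mem_Ico] at hj
      rw [Nat.sub_add_comm hj.2.le]
    · rw [sum_Ico_eq_sum_range]
      rw [Nat.add_sub_cancel_left]
      apply sum_congr rfl
      intro u hu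
      rw [mem_range] at hu
      rw [show x + 2 ^ t - (x + u) = 1 + (2 ^ t - 1 - u) by omega]
  have d1 : (2 : ℤ) ^ t ∣ ∑ j ∈ Ico s x, p j * f (x - j + 2 ^ t) -
      ∑ j ∈ Ico s x, p j * f (x - j) := by
    rw [← sum_sub_distrib]
    apply dvd_sum
    intro j hj
    rw [mem_Ico] at hj
    rw [← mul_sub]
    exact (hf t _ (by omega)).mul_left _
  have d2 := period hp hf t x 1 hx le_rfl
  show (2 : ℤ) ^ t ∣ 2 * ∑ j ∈ Ico s (x + 2 ^ t), p j * f (x + 2 ^ t - j) -
    2 * ∑ j ∈ Ico s x, p j * f (x - j)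
  rw [e]
  have := dvd_add (d1.mul_left 2) d2
  have e3 : ∀ A B C : ℤ, 2 * (A + B) - 2 * C = 2 * (A - C) + 2 * B := fun A B C => by ring
  rw [e3]
  exact this

/-- The class of coefficient sequences `1, 2 f 1, 2 f 2, …` with `f` Lipschitz. -/
structure Good (R f : ℕ → ℤ) : Prop where
  zero : R 0 = 1
  pos : ∀ i, 1 ≤ i → R i = 2 * f i
  lip : Lip 1 f

/-- Cauchy product. -/
def conv (R p : ℕ → ℤ) (n : ℕ) : ℤ := ∑ j ∈ range (n + 1), R (n - j) * p j

lemma conv_eq {R f : ℕ → ℤ} (hR : Good R f) (p : ℕ → ℤ) (n : ℕ) :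
    conv R p n = p n + 2 * ∑ j ∈ Ico 0 n, p j * f (n - j) := by
  unfold conv
  rw [sum_range_succ, Nat.sub_self, hR.zero, one_mul, add_comm]
  congr 1
  rw [mul_sum, range_eq_Ico]
  apply sum_congr rfl
  intro j hj
  rw [mem_Ico] at hj
  rw [hR.pos _ (by omega)]
  ring

lemma conv_lip0 {R f p : ℕ → ℤ} (hR : Good R f) (hp : Lip 0 p) : Lip 0 (conv R p) :=
  (hp.add (lip_conv hp hR.lip)).congr fun n _ => conv_eq hR p n

lemma conv_lip1 {R f p : ℕ → ℤ} (hR : Good R f) (hp : Lip 1 p) : Lip 1 (conv R p) := by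
  apply ((hp.add (lip_conv hp hR.lip)).add (hR.lip.cmul (2 * p 0))).congr
  intro n hn
  rw [conv_eq hR p n]
  rw [← sum_Ico_consecutive _ (Nat.zero_le 1) hn]
  simp
  ring

lemma good_conv {R f R' f' : ℕ → ℤ} (hR : Good R f) (hR' : Good R' f') :
    Good (conv R R') (fun n => f n + f' n + 2 * ∑ j ∈ Ico 1 n, f' j * f (n - j)) where
  zero := by simp [conv, hR.zero, hR'.zero]
  pos := by
    intro i hi
    rw [conv_eq hR, ← sum_Ico_consecutive _ (Nat.zero_le 1) hi]
    simp only [Nat.Ico_succ_singleton, sum_singleton, Nat.sub_zero]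
    rw [hR'.zero, hR'.pos i hi]
    have : ∑ j ∈ Ico 1 i, R' j * f (i - j) = 2 * ∑ j ∈ Ico 1 i, f' j * f (i - j) := by
      rw [mul_sum]
      apply sum_congr rfl
      intro j hj
      rw [mem_Ico] at hj
      rw [hR'.pos j hj.1]
      ring
    rw [this]
    ring
  lip := (hR.lip.add hR'.lip).add (lip_conv hR'.lip hR.lip)

/-- The doubling operators. -/
def T (R : ℕ → ℤ) (e : ℕ) (p : ℕ → ℤ) (l : ℕ) : ℤ := conv R p (2 * l + e)

lemma T_contr {R f p : ℕ → ℤ} (hR : Good R f) (hp : Lip 0 p) (t x : ℕ) :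
    (2 : ℤ) ^ (t + 1) ∣ T R 0 p (x + 2 ^ t) - T R 0 p x := by
  have := conv_lip0 hR hp (t + 1) (2 * x) (Nat.zero_le _)
  unfold T
  rw [show 2 * (x + 2 ^ t) + 0 = 2 * x + 2 ^ (t + 1) by ring]
  exact this

lemma T_lip0 {R f p : ℕ → ℤ} (hR : Good R f) (hp : Lip 0 p) : Lip 0 (T R 0 p) :=
  fun t x _ => (pow_dvd_pow 2 (Nat.le_succ t)).trans (T_contr hR hp t x)

lemma T_lip1 {R f p : ℕ → ℤ} (hR : Good R f) (hp : Lip 1 p) : Lip 1 (T R 0 p) := by
  intro t x hx
  have := conv_lip1 hR hp (t + 1) (2 * x) (by omega)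
  refine (pow_dvd_pow 2 (Nat.le_succ t)).trans ?_
  unfold T
  rw [show 2 * (x + 2 ^ t) + 0 = 2 * x + 2 ^ (t + 1) by ring]
  exact this

lemma T_one_lip {R f p : ℕ → ℤ} (hR : Good R f) (hp : Lip 1 p) : Lip 0 (T R 1 p) := by
  intro t x _
  have := conv_lip1 hR hp (t + 1) (2 * x + 1) (by omega)
  refine (pow_dvd_pow 2 (Nat.le_succ t)).trans ?_
  unfold T
  rw [show 2 * (x + 2 ^ t) + 1 = 2 * x + 1 + 2 ^ (t + 1) by ring]
  exact this

lemma T_zero {R f : ℕ → ℤ} (hR : Good R f) (p : ℕ → ℤ) : T R 0 p 0 = p 0 := by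
  simp [T, conv, hR.zero]

lemma conv_add (R p q : ℕ → ℤ) (n : ℕ) :
    conv R (fun i => p i + q i) n = conv R p n + conv R q n := by
  unfold conv
  rw [← sum_add_distrib]
  apply sum_congr rfl
  intro j _
  ring

lemma conv_cmul (R p : ℕ → ℤ) (c : ℤ) (n : ℕ) :
    conv R (fun i => c * p i) n = c * conv R p n := by
  unfold conv
  rw [mul_sum]
  apply sum_congr rfl
  intro j _
  ring

lemma T_add (R p q : ℕ → ℤ) (e : ℕ) :
    T R e (fun i => p i + q i) = fun l => T R e p l + T R e q l := by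
  funext l; exact conv_add _ _ _ _

lemma T_cmul (R p : ℕ → ℤ) (c : ℤ) (e : ℕ) :
    T R e (fun i => c * p i) = fun l => c * T R e p l := by
  funext l; exact conv_cmul _ _ _ _

lemma iter_add (R p q : ℕ → ℤ) (n : ℕ) :
    (T R 0)^[n] (fun i => p i + q i) = fun l => (T R 0)^[n] p l + (T R 0)^[n] q l := by
  induction n generalizing p q with
  | zero => rfl
  | succ n ih => simp only [Function.iterate_succ, Function.comp, T_add, ih]

lemma iter_cmul (R p : ℕ → ℤ) (c : ℤ) (n : ℕ) :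
    (T R 0)^[n] (fun i => c * p i) = fun l => c * (T R 0)^[n] p l := by
  induction n generalizing p with
  | zero => rfl
  | succ n ih => simp only [Function.iterate_succ, Function.comp, T_cmul, ih]

/-- Contraction. -/
lemma contraction {R f : ℕ → ℤ} (hR : Good R f) (n : ℕ) :
    ∀ p : ℕ → ℤ, Lip 0 p → p 0 = 0 → ∀ l, (2 : ℤ) ^ n ∣ (T R 0)^[n] p l := by
  induction n with
  | zero => intro p _ _ l; simp
  | succ n ih =>
    intro p hp h0 l
    have hev : ∀ l, (2 : ℤ) ∣ T R 0 p l := by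
      intro l
      induction l with
      | zero => rw [T_zero hR, h0]; exact dvd_zero _
      | succ l ihl =>
        have := T_contr hR hp 0 l
        simp only [zero_add, pow_one, pow_zero] at this
        have := dvd_add this ihl
        simpa using this
    choose q hq using hev
    have hTq : T R 0 p = fun i => 2 * q i := funext hq
    have hq0 : q 0 = 0 := by
      have := hq 0
      rw [T_zero hR, h0] at this
      omega
    have hql : Lip 0 q := by
      intro t x _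
      have := T_contr hR hp t x
      rw [hq, hq, pow_succ, ← mul_sub, mul_comm (2 : ℤ) (q _ - q _)] at this
      exact Int.dvd_of_mul_dvd_mul_right (by norm_num) this
    rw [Function.iterate_succ, Function.comp, hTq, iter_cmul, pow_succ, mul_comm ((2 : ℤ) ^ n)]
    exact mul_dvd_mul_left _ (ih q hql hq0 l)

lemma main_contr {R f : ℕ → ℤ} (hR : Good R f) (n : ℕ) {p : ℕ → ℤ} (hp : Lip 0 p) (l : ℕ) :
    (2 : ℤ) ^ n ∣ (T R 0)^[n] p l - p 0 * (T R 0)^[n] (fun _ => 1) l := by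
  have h := contraction hR n (fun i => p i + (-(p 0)) * 1) (hp.add (Lip.const 0 _)) (by ring) l
  rw [iter_add R p (fun _ => -(p 0) * 1), iter_cmul R (fun _ => 1)] at h
  convert h using 1
  ring

end Q263.BP
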