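import Mathlib
import Pool.Agent.Q263.BP.Lip

/-!
# Self-similar sequences: `c (2 ^ a + n)` is eventually a fixed multiple of `c n`
-/

namespace Q263.BP

open Finset

/-- `c` satisfies `G(x) = R(x) G(x ^ 2)`. -/
structure SelfSim (R c : ℕ → ℤ) : Prop where
  zero : c 0 = 1
  step : ∀ n, c n = ∑ i ∈ range (n / 2 + 1), R (n - 2 * i) * c i

/-- The representation of a 2-section. -/
def Rep (c : ℕ → ℤ) (a n0 : ℕ) (p : ℕ → ℤ) : Prop :=
  ∀ s, c (2 ^ a * s + n0) = ∑ j ∈ range (s + 1), p j * c (s - j)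

lemma swap {R c : ℕ → ℤ} (hc : SelfSim R c) (p : ℕ → ℤ) (n : ℕ) :
    ∑ j ∈ range (n + 1), p j * c (n - j) =
      ∑ i ∈ range (n / 2 + 1), conv R p (n - 2 * i) * c i := by
  calc ∑ j ∈ range (n + 1), p j * c (n - j)
      = ∑ j ∈ range (n + 1), ∑ i ∈ range ((n - j) / 2 + 1),
          p j * (R (n - j - 2 * i) * c i) := by
        apply sum_congr rfl
        intro j _
        rw [hc.step (n - j), mul_sum]
    _ = ∑ i ∈ range (n / 2 + 1), ∑ j ∈ range (n - 2 * i + 1),
          p j * (R (n - j - 2 * i) * c i) := by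
        apply sum_comm'
        intro j i
        simp only [mem_range]
        omega
    _ = _ := by
        apply sum_congr rfl
        intro i _
        unfold conv
        rw [sum_mul]
        apply sum_congr rfl
        intro j _
        rw [Nat.sub_right_comm]
        ring

lemma rep_step {R c : ℕ → ℤ} (hc : SelfSim R c) {a n0 : ℕ} {p : ℕ → ℤ} (h : Rep c a n0 p)
    (e : ℕ) (he : e < 2) : Rep c (a + 1) (n0 + 2 ^ a * e) (T R e p) := by
  intro s
  have h1 := h (2 * s + e)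
  rw [show 2 ^ (a + 1) * s + (n0 + 2 ^ a * e) = 2 ^ a * (2 * s + e) + n0 by ring, h1,
    swap hc p, show (2 * s + e) / 2 = s by omega]
  rw [← sum_range_reflect]
  apply sum_congr rfl
  intro j hj
  rw [mem_range] at hj
  unfold T
  rw [show 2 * s + e - 2 * (s + 1 - 1 - j) = 2 * j + e by omega,
    show s + 1 - 1 - j = s - j by omega]

lemma rep_zero {c : ℕ → ℤ} : Rep c 0 0 (fun j => if j = 0 then 1 else 0) := by
  intro s
  simp

lemma rep_val {R c : ℕ → ℤ} (hc : SelfSim R c) {a n0 : ℕ} {p : ℕ → ℤ} (h : Rep c a n0 p) :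
    p 0 = c n0 := by
  have := h 0
  simp [hc.zero] at this
  exact this.symm

lemma exists_rep {R f c : ℕ → ℤ} (hR : Good R f) (hc : SelfSim R c) (a : ℕ) :
    ∀ n0, n0 < 2 ^ a → ∃ p, Rep c a n0 p ∧ Lip 1 p ∧ (1 ≤ n0 → Lip 0 p) := by
  induction a with
  | zero =>
    intro n0 h
    have h0 : n0 = 0 := by simpa using h
    subst h0
    refine ⟨_, rep_zero, ?_, by omega⟩
    refine (Lip.const 1 0).congr ?_
    intro n hn
    simp; omega
  | succ a ih =>
    intro n0 h
    rcases Nat.lt_or_ge n0 (2 ^ a) with hlt | hge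
    · obtain ⟨p, hp, h1, h0⟩ := ih n0 hlt
      refine ⟨T R 0 p, ?_, T_lip1 hR h1, fun hn => T_lip0 hR (h0 hn)⟩
      have := rep_step hc hp 0 (by norm_num)
      simpa using this
    · obtain ⟨p, hp, h1, h0⟩ := ih (n0 - 2 ^ a) (by rw [pow_succ] at h; omega)
      have h2 := T_one_lip hR h1
      refine ⟨T R 1 p, ?_, h2.mono (Nat.zero_le 1), fun _ => h2⟩
      have := rep_step hc hp 1 (by norm_num)
      rw [mul_one, Nat.sub_add_cancel hge] at this
      exact this

lemma rep_iter {R c : ℕ → ℤ} (hc : SelfSim R c) {a n0 : ℕ} {p : ℕ → ℤ} (h : Rep c a n0 p)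
    (n : ℕ) : Rep c (a + n) n0 ((T R 0)^[n] p) := by
  induction n with
  | zero => exact h
  | succ n ih =>
    have := rep_step hc ih 0 (by norm_num)
    rw [Function.iterate_succ_apply']
    simpa [add_assoc] using this

/-- The multiplier at precision `E`. -/
def kap (R c : ℕ → ℤ) (E : ℕ) : ℤ := c 1 + (T R 0)^[E] (fun _ => 1) 1

/-- Doubling far away multiplies the value by the constant `kap`. -/
lemma shift {R f c : ℕ → ℤ} (hR : Good R f) (hc : SelfSim R c) (E n0 : ℕ) (hn : 1 ≤ n0) :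
    ∃ n, n0 < n ∧ (2 : ℤ) ^ E ∣ c n - kap R c E * c n0 := by
  obtain ⟨p, hp, _, h0⟩ := exists_rep hR hc n0 n0 Nat.lt_two_pow_self
  have hl := h0 hn
  refine ⟨2 ^ (n0 + E) * 1 + n0, by have := Nat.two_pow_pos (n0 + E); omega, ?_⟩
  have hrep := rep_iter hc hp E
  rw [hrep 1, sum_range_succ, sum_range_succ, sum_range_zero, zero_add, Nat.sub_zero,
    Nat.sub_self, hc.zero, rep_val hc hrep]
  have h1 := main_contr hR E hl 1
  rw [rep_val hc hp] at h1
  unfold kap
  convert h1 using 1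
  ring

/-- Iterated shift. -/
lemma shift_pow {R f c : ℕ → ℤ} (hR : Good R f) (hc : SelfSim R c) (E n0 : ℕ) (hn : 1 ≤ n0)
    (J : ℕ) : ∃ n, n0 ≤ n ∧ (2 : ℤ) ^ E ∣ c n - kap R c E ^ J * c n0 := by
  induction J with
  | zero => exact ⟨n0, le_rfl, by simp⟩
  | succ J ih =>
    obtain ⟨n, h1, h2⟩ := ih
    obtain ⟨n', h3, h4⟩ := shift hR hc E n (hn.trans h1)
    refine ⟨n', h1.trans h3.le, ?_⟩
    have h5 := dvd_add h4 (h2.mul_left (kap R c E))
    rw [show c n' - kap R c E ^ (J + 1) * c n0 =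
      c n' - kap R c E * c n + kap R c E * (c n - kap R c E ^ J * c n0) by ring]
    exact h5

/-- The value of the multiplier modulo `M`, from a fixed point modulo `M`. -/
lemma kap_mod {R f c : ℕ → ℤ} (hR : Good R f) {E t : ℕ} (hE : t ≤ E) {q : ℕ → ℤ}
    (hq : Lip 0 q) (hq0 : q 0 = 1) (hfix : ∀ l, (2 : ℤ) ^ t ∣ T R 0 q l - q l) :
    (2 : ℤ) ^ t ∣ kap R c E - (c 1 + q 1) := by
  have hlin : ∀ n : ℕ, ∀ l, (2 : ℤ) ^ t ∣ (T R 0)^[n] q l - q l := by
    intro n
    induction n with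
    | zero => intro l; simp
    | succ n ih =>
      intro l
      have hstep : (2 : ℤ) ^ t ∣ T R 0 ((T R 0)^[n] q) l - T R 0 q l := by
        unfold T conv
        rw [← sum_sub_distrib]
        apply dvd_sum
        intro j _
        rw [← mul_sub]
        exact (ih j).mul_left _
      rw [Function.iterate_succ_apply']
      have := dvd_add hstep (hfix l)
      simpa using this
  have h1 := (pow_dvd_pow (2 : ℤ) hE).trans (main_contr hR E hq 1)
  rw [hq0, one_mul] at h1
  have h2 := dvd_sub (hlin E 1) h1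
  rw [show kap R c E - (c 1 + q 1) = (T R 0)^[E] q 1 - q 1 -
    ((T R 0)^[E] q 1 - (T R 0)^[E] (fun _ => 1) 1) by unfold kap; ring]
  exact h2

end Q263.BP
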