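import Mathlib
import Pool.Agent.Q263.BP.Rep

/-!
# The generating function of coloured binary partitions
-/

namespace Q263.BP

open Finset PowerSeries
open scoped PowerSeries.WithPiTopology

/-- The infinite product. -/
noncomputable def P (m : ℕ) : ℤ⟦X⟧ := ∏' j : ℕ, (1 - X ^ (2 ^ j)) ^ m

lemma multipliable_shift (m i : ℕ) :
    Multipliable (fun j : ℕ => ((1 : ℤ⟦X⟧) - X ^ (2 ^ (j + i))) ^ m) := by
  apply Multipliable.pow
  simp_rw [sub_eq_add_neg]
  apply PowerSeries.WithPiTopology.multipliable_one_add_of_tendsto_order_atTop_nhds_top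
  refine ENat.tendsto_nhds_top_iff_natCast_lt.mpr
    (fun n ↦ Filter.eventually_atTop.mpr ⟨n, ?_⟩)
  intro a ha
  rw [order_neg, order_X_pow]
  norm_cast
  calc n ≤ a + i := by omega
    _ < 2 ^ (a + i) := Nat.lt_two_pow_self

lemma continuous_expand : Continuous (fun p : ℤ⟦X⟧ => expand 2 two_ne_zero p) := by
  rw [continuous_iff_continuousAt]
  intro p
  rw [ContinuousAt, PowerSeries.WithPiTopology.tendsto_iff_coeff_tendsto]
  intro d
  rcases Nat.even_or_odd' d with ⟨k, rfl | rfl⟩
  · simp only [coeff_expand_mul]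
    exact (PowerSeries.WithPiTopology.continuous_coeff ℤ k).continuousAt
  · have : ∀ q : ℤ⟦X⟧, coeff (2 * k + 1) (expand 2 two_ne_zero q) = 0 := fun q =>
      coeff_expand_of_not_dvd 2 two_ne_zero q (by omega)
    rw [this p]
    exact Filter.Tendsto.congr (fun q => (this q).symm) tendsto_const_nhds

lemma P_eq (m : ℕ) : P m = (1 - X) ^ m * expand 2 two_ne_zero (P m) := by
  have h1 := tprod_eq_zero_mul' (f := fun j : ℕ => ((1 : ℤ⟦X⟧) - X ^ (2 ^ j)) ^ m)
    (multipliable_shift m 1)
  have h0 := multipliable_shift m 0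
  simp only [add_zero] at h0
  have h2 := h0.map_tprod (expand 2 two_ne_zero : ℤ⟦X⟧ →ₐ[ℤ] ℤ⟦X⟧) continuous_expand
  unfold P
  rw [h2]
  refine h1.trans ?_
  rw [pow_zero, pow_one]
  congr 1
  apply tprod_congr
  intro j
  rw [map_pow, map_sub, map_pow, map_one, expand_X, ← pow_mul, pow_succ, mul_comm 2]

lemma constantCoeff_P (m : ℕ) : constantCoeff (P m) = 1 := by
  have h0 := multipliable_shift m 0
  simp only [add_zero] at h0
  unfold P
  rw [h0.map_tprod (constantCoeff (R := ℤ)) (PowerSeries.WithPiTopology.continuous_constantCoeff ℤ)]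
  have : ∀ j : ℕ, constantCoeff (((1 : ℤ⟦X⟧) - X ^ (2 ^ j)) ^ m) = 1 := by
    intro j
    rw [map_pow, map_sub, map_pow, map_one, constantCoeff_X, zero_pow (by positivity), sub_zero,
      one_pow]
  simp only [this, tprod_one]

/-- `(1 + x) / (1 - x)`. -/
noncomputable def B : ℤ⟦X⟧ := mk (fun n => if n = 0 then 1 else 2)

lemma B_mul : (1 - X) * B = 1 + X := by
  ext n
  rw [sub_mul, one_mul, map_sub]
  rcases n with - | n
  · simp [B]
  · rw [coeff_succ_X_mul]
    rcases n with - | n
    · simp [B]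
    · simp [B, coeff_X]

lemma coeff_mul_conv (p q : ℤ⟦X⟧) (n : ℕ) :
    coeff n (p * q) = conv (fun i => coeff i p) (fun i => coeff i q) n := by
  rw [mul_comm, coeff_mul, Finset.Nat.sum_antidiagonal_eq_sum_range_succ_mk]
  unfold conv
  apply sum_congr rfl
  intro j _
  ring

lemma good_pow (m : ℕ) : ∃ f, Good (fun i => coeff i (B ^ m)) f := by
  induction m with
  | zero =>
    refine ⟨fun _ => 0, ⟨by simp, ?_, Lip.const 1 0⟩⟩
    intro i hi
    simp [coeff_one]
    omega
  | succ m ih =>
    obtain ⟨f, hf⟩ := ih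
    have hB : Good (fun i => coeff i B) (fun _ => 1) := by
      refine ⟨by simp [B], ?_, Lip.const 1 1⟩
      intro i hi
      simp [B]
      omega
    have h2 := good_conv hf hB
    have e : (fun i => coeff i (B ^ (m + 1))) =
        conv (fun i => coeff i (B ^ m)) (fun i => coeff i B) := by
      funext i
      rw [pow_succ, coeff_mul_conv]
    rw [e]
    exact ⟨_, h2⟩

lemma selfSim_of (m : ℕ) {G : ℤ⟦X⟧} (hG : G * ((1 - X) ^ m * P m) = 1) :
    SelfSim (fun i => coeff i (B ^ m)) (fun i => coeff i G) := by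
  have hexp : expand 2 two_ne_zero G * expand 2 two_ne_zero ((1 - X) ^ m * P m) = 1 := by
    rw [← map_mul, hG, map_one]
  have hH : B ^ m * ((1 - X) ^ m * P m) = expand 2 two_ne_zero ((1 - X) ^ m * P m) := by
    conv_lhs => rw [P_eq]
    rw [map_mul, map_pow, map_sub, map_one, expand_X]
    have : (1 - X) ^ m * B ^ m = (1 + X : ℤ⟦X⟧) ^ m := by rw [← mul_pow, B_mul]
    have h2 : (1 - X ^ 2 : ℤ⟦X⟧) ^ m = (1 + X) ^ m * (1 - X) ^ m := by
      rw [← mul_pow]; congr 1; ring
    rw [h2]
    linear_combination ((1 - X) ^ m * expand 2 two_ne_zero (P m)) * this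
  have hGe : G = B ^ m * expand 2 two_ne_zero G := by
    calc G = G * (expand 2 two_ne_zero G * expand 2 two_ne_zero ((1 - X) ^ m * P m)) := by
          rw [hexp, mul_one]
      _ = (G * ((1 - X) ^ m * P m)) * (B ^ m * expand 2 two_ne_zero G) := by
          rw [← hH]; ring
      _ = _ := by rw [hG, one_mul]
  refine ⟨?_, ?_⟩
  · have h1 := congrArg constantCoeff hG
    simp only [map_mul, map_pow, map_sub, map_one, constantCoeff_X, constantCoeff_P, sub_zero,
      one_pow, mul_one] at h1
    simpa using h1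
  · intro n
    conv_lhs => rw [hGe]
    rw [coeff_mul_conv]
    unfold conv
    have h1 : ∑ j ∈ range (n + 1), coeff (n - j) (B ^ m) * coeff j (expand 2 two_ne_zero G) =
        ∑ j ∈ (range (n + 1)).filter (fun j => 2 ∣ j),
          coeff (n - j) (B ^ m) * coeff j (expand 2 two_ne_zero G) := by
      symm
      apply sum_filter_of_ne
      intro j _ hne
      by_contra hd
      apply hne
      rw [coeff_expand_of_not_dvd 2 two_ne_zero G hd, mul_zero]
    rw [h1]
    apply sum_nbij' (fun j => j / 2) (fun i => 2 * i)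
    · intro j hj
      simp only [mem_filter, mem_range] at hj ⊢
      omega
    · intro i hi
      simp only [mem_filter, mem_range] at hi ⊢
      omega
    · intro j hj
      simp only [mem_filter, mem_range] at hj ⊢
      omega
    · intro i hi
      simp only [mem_range] at hi ⊢
      omega
    · intro j hj
      simp only [mem_filter, mem_range] at hj ⊢
      obtain ⟨_, k, rfl⟩ := hj
      rw [coeff_expand_mul, Nat.mul_div_cancel_left k (by norm_num)]

end Q263.BP
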