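import Mathlib
import Pool.Agent.Q263.BP.Series

/-!
# Numerical data for `m = 1023`
-/

namespace Q263.BP

open Finset PowerSeries

/-- The coefficients of `((1 + x) / (1 - x)) ^ 1023` up to degree 34. -/
def Rl : List ℤ := [1,
  2046,
  2093058,
  1427466238,
  730150027266,
  298778247636990,
  101883869210898434,
  29779412899533768702,
  7616161261957669519362,
  1731430488650632063666174,
  354256770906928886361714690,
  65893176013634032471331022846,
  11235081724300358310433907490818,
  1768284771758052544423458412881918,
  258431818856976222156437222831878146,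
  35251632605560413681009870858226010110,
  4508028647277537753653524118565628936194,
  542585610989348567657666205567538246682622,
  61677904919031311668424639609837794598645762,
  6642221969459204347328789103538040836790675454,
  679554817590103732912236707467590431618824880130,
  66214064714608188686715978593888440279429272741886,
  6158525795565461642167233497147504573652030387613698,
  547901490134171360514633946552794174562518355990661118,
  46714247349250710157044530574331421927313870876059172866,
  3823598072433601556904197845434112141171964709384194115582,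
  300930876851366569325759917711229899806311358780811022331906,
  22807413481100253365904718391974526955823790340121257649776638,
  1666849720897473354194411556708584790321801397543442651357986818,
  117620356176559316880091223186977510111248720748726446159827068926,
  8023264017647516386352802872138127535391463103034184174574806888450,
  529645457110836733763463139415065525329166442635795286713506125121534,
  33871728224040668211613630229043381520298008922685255691908461756416002,
  2100544695622958881809338024422564412782270618652598266652510043742603262,
  126435245369051269810725801003996946375328683001433587698622841772752105474]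

/-- The coefficients of the generating function for `m = 1023` up to degree 17. -/
def cl : List ℤ := [1,
  2046,
  2095104,
  1431652354,
  734434519038,
  301703130142722,
  103382142772525056,
  30393706813584865278,
  7826148395871740098560,
  1792987184082868316903426,
  370053941009334565562861568,
  69498502556076008514990872574,
  11975994126660667417036494202882,
  1906772590454961178515360681961470,
  282171979585383516456660686870218752,
  39010097073069881288222280595085887490,
  5060831610245772717227706243186831484926,
  618510808557119015381050307587534333843458]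

lemma B_ode : (1 - X ^ 2) * d⁄dX ℤ B = 2 * B := by
  have h1 : d⁄dX ℤ ((1 - X) * B) = d⁄dX ℤ (1 + X) := by rw [B_mul]
  rw [Derivation.leibniz, map_sub, map_add, Derivation.map_one_eq_zero, derivative_X] at h1
  simp only [smul_eq_mul] at h1
  have h2 : (1 - X : ℤ⟦X⟧) ≠ 0 := by
    intro h
    have := congrArg constantCoeff h
    simp at this
  apply mul_left_cancel₀ h2
  linear_combination (1 - X) * (1 + X) * h1 - (1 - X) * B_mul

lemma pow_ode (m : ℕ) : (1 - X ^ 2) * d⁄dX ℤ (B ^ m) = 2 * (m : ℤ⟦X⟧) * B ^ m := by
  rcases m with - | m
  · simp
  · rw [Derivation.leibniz_pow]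
    simp only [smul_eq_mul, nsmul_eq_mul, Nat.add_sub_cancel]
    rw [pow_succ]
    linear_combination ((m + 1 : ℕ) : ℤ⟦X⟧) * B ^ m * B_ode

lemma pow_ode' (m : ℕ) : (1 - X ^ 2) * d⁄dX ℤ (B ^ m) = C (2 * (m : ℤ)) * B ^ m := by
  rw [pow_ode]
  congr 1
  simp

lemma R_one (m : ℕ) : coeff 1 (B ^ m) = 2 * (m : ℤ) := by
  have h := congrArg (coeff 0) (pow_ode' m)
  have h0 : coeff 0 (B ^ m) = 1 := (good_pow m).choose_spec.zero
  rw [sub_mul, one_mul, map_sub, coeff_derivative, coeff_C_mul, h0, coeff_X_pow_mul'] at h
  simpa using h

lemma R_rec (m n : ℕ) : ((n : ℤ) + 2) * coeff (n + 2) (B ^ m) =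
    2 * m * coeff (n + 1) (B ^ m) + n * coeff n (B ^ m) := by
  have h := congrArg (coeff (n + 1)) (pow_ode' m)
  rw [sub_mul, one_mul, map_sub, coeff_derivative, coeff_C_mul, coeff_X_pow_mul'] at h
  have h2 : (if 2 ≤ n + 1 then coeff (n + 1 - 2) (d⁄dX ℤ (B ^ m)) else 0) =
      n * coeff n (B ^ m) := by
    rcases n with - | n
    · simp
    · rw [if_pos (by omega), show n + 1 + 1 - 2 = n by omega, coeff_derivative]
      push_cast
      ring
  rw [h2] at h
  push_cast at h
  rw [show n + 1 + 1 = n + 2 by ring] at h
  linear_combination h

lemma Rl_rec : ∀ n : ℕ, n < 33 → ((n : ℤ) + 2) * Rl.getD (n + 2) 0 =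
    2 * 1023 * Rl.getD (n + 1) 0 + n * Rl.getD n 0 := by decide +kernel

lemma R_val (n : ℕ) : n ≤ 34 → coeff n (B ^ 1023) = Rl.getD n 0 := by
  induction n using Nat.strong_induction_on with
  | _ n ih =>
    intro hn
    rcases n with - | - | n
    · have := (good_pow 1023).choose_spec.zero
      simp at this
      simpa [Rl] using this
    · rw [zero_add, R_one]
      simp [Rl]
    · have h1 := R_rec 1023 n
      rw [ih (n + 1) (by omega) (by omega), ih n (by omega) (by omega)] at h1
      have h2 := Rl_rec n (by omega)
      have h3 : ((n : ℤ) + 2) ≠ 0 := by positivity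
      apply mul_left_cancel₀ h3
      rw [h1, h2]
      norm_cast

lemma cl_rec : ∀ n : ℕ, n < 18 → 1 ≤ n → cl.getD n 0 =
    ∑ i ∈ range (n / 2 + 1), Rl.getD (n - 2 * i) 0 * cl.getD i 0 := by decide +kernel

lemma c_val {c : ℕ → ℤ} (hc : SelfSim (fun i => coeff i (B ^ 1023)) c) (n : ℕ) :
    n ≤ 17 → c n = cl.getD n 0 := by
  induction n using Nat.strong_induction_on with
  | _ n ih =>
    intro hn
    rcases Nat.eq_zero_or_pos n with rfl | hpos
    · rw [hc.zero]
      simp [cl]
    · rw [hc.step n, cl_rec n (by omega) hpos]
      apply sum_congr rfl
      intro i hi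
      rw [mem_range] at hi
      rw [R_val (n - 2 * i) (by omega), ih i (by omega) (by omega)]

lemma c34 {c : ℕ → ℤ} (hc : SelfSim (fun i => coeff i (B ^ 1023)) c) :
    ∃ w : ℤ, c 34 = 2 ^ 11 * (1 + 2 ^ 13 * w) := by
  refine ⟨12825041345576594186694338756004653332697636649771948522140304093751, ?_⟩
  have h1 : c 34 = ∑ i ∈ range 18, Rl.getD (34 - 2 * i) 0 * cl.getD i 0 := by
    rw [hc.step 34]
    apply sum_congr (by norm_num)
    intro i hi
    rw [mem_range] at hi
    rw [R_val (34 - 2 * i) (by omega), c_val hc i (by omega)]
  rw [h1]
  decide +kernel

end Q263.BP
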