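import Mathlib
import Pool.Agent.Q263.BP.Num

/-!
# The fixed point of the doubling operator modulo `8192`
-/

namespace Q263.BP

open Finset PowerSeries

lemma pow_two_pow (k : ℕ) : ∃ E : ℤ⟦X⟧, (1 + X : ℤ⟦X⟧) ^ (2 ^ (k + 2)) =
    (1 - X) ^ (2 ^ (k + 2)) + 2 ^ (k + 3) * (X * (1 + X ^ 2)) * (1 - X) ^ (2 ^ (k + 2) - 4) +
      2 ^ (k + 5) * E := by
  induction k with
  | zero =>
    refine ⟨0, ?_⟩
    norm_num
    ring
  | succ k ih =>
    obtain ⟨E, hE⟩ := ih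
    have h4 : 4 ≤ 2 ^ (k + 2) := by
      rw [pow_add]
      have := Nat.one_le_two_pow (n := k)
      omega
    obtain ⟨r, hr⟩ := Nat.exists_eq_add_of_le h4
    have e1 : 2 ^ (k + 1 + 2) = 4 + 4 + (r + r) := by
      rw [show k + 1 + 2 = (k + 2) + 1 by ring, pow_succ, hr]; ring
    refine ⟨2 ^ k * (X * (1 + X ^ 2)) ^ 2 * (1 - X) ^ (r + r) + E * ((1 - X) ^ (4 + r) +
        2 ^ (k + 3) * (X * (1 + X ^ 2)) * (1 - X) ^ r) + 2 ^ (k + 4) * E ^ 2, ?_⟩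
    rw [show (2 : ℕ) ^ (k + 1 + 2) = 2 ^ (k + 2) * 2 by rw [← pow_succ], pow_mul, hE, hr]
    rw [show 4 + r - 4 = r by omega, show (4 + r) * 2 - 4 = 4 + (r + r) by omega]
    ring

lemma geom_mul : (1 - X : ℤ⟦X⟧) * mk (fun _ => 1) = 1 := by
  ext n
  rw [sub_mul, one_mul, map_sub]
  rcases n with - | n
  · simp
  · rw [coeff_succ_X_mul]
    simp [coeff_one]

lemma R_series : ∃ E : ℤ⟦X⟧, (1 - 2 * X + 2 * X ^ 3 - X ^ 4) * B ^ 1023 =
    (1 - X) ^ 4 + 2048 * (X * (1 + X ^ 2)) + 8192 * E := by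
  obtain ⟨E, hE⟩ := pow_two_pow 8
  norm_num at hE
  have h1 : (1 - X) ^ 1023 * B ^ 1023 = (1 + X : ℤ⟦X⟧) ^ 1023 := by rw [← mul_pow, B_mul]
  have h4 : (mk (fun _ => 1) : ℤ⟦X⟧) ^ 1020 * (1 - X : ℤ⟦X⟧) ^ 1020 = 1 := by
    rw [← mul_pow, mul_comm, geom_mul, one_pow]
  have e1 : (1 - X : ℤ⟦X⟧) ^ 1023 = (1 - X) ^ 1020 * (1 - X) ^ 3 := by rw [← pow_add]
  have e2 : (1 - X : ℤ⟦X⟧) ^ 1024 = (1 - X) ^ 1020 * (1 - X) ^ 4 := by rw [← pow_add]
  have e3 : (1 + X : ℤ⟦X⟧) ^ 1024 = (1 + X) * (1 + X) ^ 1023 := by rw [← pow_succ']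
  rw [e1] at h1
  rw [e2, e3, ← h1] at hE
  generalize (mk (fun _ => 1) : ℤ⟦X⟧) ^ 1020 = U at h4
  generalize (1 - X : ℤ⟦X⟧) ^ 1020 = Z at h4 hE h1
  generalize B ^ 1023 = R at *
  refine ⟨U * E, ?_⟩
  linear_combination U * hE - ((1 + X) * (1 - X) ^ 3 * R - (1 - X) ^ 4 -
    2048 * (X * (1 + X ^ 2))) * h4

/-- The residues of the coefficients modulo `8192`. -/
def g (n : ℕ) : ℤ := if n = 0 then 1 else if n % 2 = 0 then 2 + 2048 * n else 2046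

lemma R_mod (n : ℕ) : (8192 : ℤ) ∣ coeff n (B ^ 1023) - g n := by
  obtain ⟨E, hE⟩ := R_series
  generalize B ^ 1023 = R at *
  have hR : R = C 2 * (X ^ 1 * R) - C 2 * (X ^ 3 * R) + X ^ 4 * R + (1 - C 4 * X ^ 1 +
    C 6 * X ^ 2 - C 4 * X ^ 3 + X ^ 4 + C 2048 * X ^ 1 + C 2048 * X ^ 3) + C 8192 * E := by
    have c2 : (C 2 : ℤ⟦X⟧) = 2 := by simp
    have c4 : (C 4 : ℤ⟦X⟧) = 4 := by simp
    have c6 : (C 6 : ℤ⟦X⟧) = 6 := by simp
    have c7 : (C 2048 : ℤ⟦X⟧) = 2048 := by simp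
    have c8 : (C 8192 : ℤ⟦X⟧) = 8192 := by simp
    rw [c2, c4, c6, c7, c8]
    linear_combination hE
  have key : ∀ n, coeff n R = 2 * (if 1 ≤ n then coeff (n - 1) R else 0) -
      2 * (if 3 ≤ n then coeff (n - 3) R else 0) + (if 4 ≤ n then coeff (n - 4) R else 0) +
      ((if n = 0 then 1 else 0) - 4 * (if n = 1 then 1 else 0) + 6 * (if n = 2 then 1 else 0) -
      4 * (if n = 3 then 1 else 0) + (if n = 4 then 1 else 0) + 2048 * (if n = 1 then 1 else 0)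
      + 2048 * (if n = 3 then 1 else 0)) + 8192 * coeff n E := by
    intro n
    conv_lhs => rw [hR]
    simp only [map_add, map_sub, coeff_C_mul, coeff_X_pow_mul', coeff_X_pow, coeff_one]
  induction n using Nat.strong_induction_on with
  | _ n ih =>
    have k := key n
    obtain hn | hn | hn | hn | hn | hn :
      n = 0 ∨ n = 1 ∨ n = 2 ∨ n = 3 ∨ n = 4 ∨ 5 ≤ n := by omega
    · subst hn
      norm_num [g] at k ⊢
      omega
    · subst hn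
      have h0 := ih 0 (by norm_num)
      norm_num [g] at k h0 ⊢
      omega
    · subst hn
      have h0 := ih 0 (by norm_num)
      have h1 := ih 1 (by norm_num)
      norm_num [g] at k h0 h1 ⊢
      omega
    · subst hn
      have h0 := ih 0 (by norm_num)
      have h1 := ih 1 (by norm_num)
      have h2 := ih 2 (by norm_num)
      norm_num [g] at k h0 h1 h2 ⊢
      omega
    · subst hn
      have h0 := ih 0 (by norm_num)
      have h1 := ih 1 (by norm_num)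
      have h2 := ih 2 (by norm_num)
      have h3 := ih 3 (by norm_num)
      norm_num [g] at k h0 h1 h2 h3 ⊢
      omega
    · rw [if_pos (by omega), if_pos (by omega), if_pos (by omega), if_neg (by omega),
        if_neg (by omega), if_neg (by omega), if_neg (by omega), if_neg (by omega)] at k
      have h1 := ih (n - 1) (by omega)
      have h3 := ih (n - 3) (by omega)
      have h4 := ih (n - 4) (by omega)
      unfold g at *
      rw [if_neg (by omega)] at h1 h3 h4 ⊢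
      rcases Nat.mod_two_eq_zero_or_one n with h | h
      · rw [if_neg (by omega)] at h1 h3
        rw [if_pos (by omega)] at h4 ⊢
        omega
      · rw [if_pos (by omega)] at h1 h3
        rw [if_neg (by omega)] at h4 ⊢
        omega

lemma sum_pairs (F : ℕ → ℤ) (L : ℕ) : ∑ i ∈ range (2 * L + 1), F i =
    F 0 + ∑ k ∈ range L, (F (2 * k + 1) + F (2 * k + 2)) := by
  induction L with
  | zero => simp
  | succ L ih =>
    rw [show 2 * (L + 1) + 1 = 2 * L + 1 + 1 + 1 by ring, sum_range_succ, sum_range_succ, ih,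
      sum_range_succ]
    ring

/-- The fixed point. -/
def fp (l : ℕ) : ℤ := 1 + 2048 * (l : ℤ) ^ 2

lemma fp_lip : Lip 0 fp := by
  intro t x _
  unfold fp
  push_cast
  exact ⟨2048 * (2 * x + 2 ^ t), by ring⟩

lemma fp_odd (l : ℕ) (h : l % 2 = 1) : (8192 : ℤ) ∣ fp l - 2049 := by
  obtain ⟨k, rfl⟩ : ∃ k, l = 2 * k + 1 := ⟨l / 2, by omega⟩
  unfold fp
  push_cast
  exact ⟨(k : ℤ) ^ 2 + k, by ring⟩

lemma fp_even (l : ℕ) (h : l % 2 = 0) : (8192 : ℤ) ∣ fp l - 1 := by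
  obtain ⟨k, rfl⟩ : ∃ k, l = 2 * k := ⟨l / 2, by omega⟩
  unfold fp
  push_cast
  exact ⟨(k : ℤ) ^ 2, by ring⟩

lemma pair_mod (k l : ℕ) (h : k < l) :
    (8192 : ℤ) ∣ (coeff (2 * k + 1) (B ^ 1023) * fp (2 * l - (2 * k + 1)) +
      coeff (2 * k + 2) (B ^ 1023) * fp (2 * l - (2 * k + 2))) - 2048 * (2 * k + 1) := by
  obtain ⟨a, ha⟩ := R_mod (2 * k + 1)
  obtain ⟨b, hb⟩ := R_mod (2 * k + 2)
  obtain ⟨c, hc⟩ := fp_odd (2 * l - (2 * k + 1)) (by omega)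
  obtain ⟨d, hd⟩ := fp_even (2 * l - (2 * k + 2)) (by omega)
  have g1 : g (2 * k + 1) = 2046 := by
    unfold g; rw [if_neg (by omega), if_neg (by omega)]
  have g2 : g (2 * k + 2) = 2 + 2048 * (2 * k + 2) := by
    unfold g; rw [if_neg (by omega), if_pos (by omega)]; push_cast; ring
  rw [g1] at ha
  rw [g2] at hb
  have ha' : coeff (2 * k + 1) (B ^ 1023) = 2046 + 8192 * a := by linarith
  have hb' : coeff (2 * k + 2) (B ^ 1023) = 2 + 2048 * (2 * k + 2) + 8192 * b := by linarith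
  have hc' : fp (2 * l - (2 * k + 1)) = 2049 + 8192 * c := by linarith
  have hd' : fp (2 * l - (2 * k + 2)) = 1 + 8192 * d := by linarith
  rw [ha', hb', hc', hd']
  refine ⟨2049 * a + 2046 * c + 8192 * a * c + b + d * (2 + 2048 * (2 * k + 2)) +
    8192 * b * d + 512, ?_⟩
  ring

lemma fixed (l : ℕ) :
    (2 : ℤ) ^ 13 ∣ T (fun i => coeff i (B ^ 1023)) 0 fp l - fp l := by
  norm_num
  unfold T conv
  rw [← sum_range_reflect]
  have e : ∑ j ∈ range (2 * l + 0 + 1), coeff (2 * l + 0 - (2 * l + 0 + 1 - 1 - j)) (B ^ 1023) *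
      fp (2 * l + 0 + 1 - 1 - j) = ∑ j ∈ range (2 * l + 1), coeff j (B ^ 1023) * fp (2 * l - j) := by
    apply sum_congr rfl
    intro j hj
    rw [mem_range] at hj
    rw [show 2 * l + 0 - (2 * l + 0 + 1 - 1 - j) = j by omega,
      show 2 * l + 0 + 1 - 1 - j = 2 * l - j by omega]
  rw [e, sum_pairs]
  have h0 : coeff 0 (B ^ 1023) = 1 := (good_pow 1023).choose_spec.zero
  rw [h0, one_mul, Nat.sub_zero]
  have h1 : (8192 : ℤ) ∣ ∑ k ∈ range l, ((coeff (2 * k + 1) (B ^ 1023) *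
      fp (2 * l - (2 * k + 1)) + coeff (2 * k + 2) (B ^ 1023) * fp (2 * l - (2 * k + 2))) -
      2048 * (2 * k + 1)) := by
    apply dvd_sum
    intro k hk
    rw [mem_range] at hk
    exact pair_mod k l hk
  rw [sum_sub_distrib] at h1
  have h2 : ∀ L : ℕ, ∑ k ∈ range L, (2048 * (2 * (k : ℤ) + 1)) = 2048 * (L : ℤ) ^ 2 := by
    intro L
    induction L with
    | zero => simp
    | succ L ih => rw [sum_range_succ, ih]; push_cast; ring
  rw [h2] at h1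
  obtain ⟨z, hz⟩ := h1
  refine ⟨z + (l : ℤ) ^ 2, ?_⟩
  have h3 : fp (2 * l) = 1 + 8192 * (l : ℤ) ^ 2 := by unfold fp; push_cast; ring
  have h4 : fp l = 1 + 2048 * (l : ℤ) ^ 2 := rfl
  rw [h3, h4]
  linear_combination hz

lemma kap_val {c : ℕ → ℤ} (hc : SelfSim (fun i => coeff i (B ^ 1023)) c) {E : ℕ}
    (hE : 13 ≤ E) : ∃ w : ℤ, kap (fun i => coeff i (B ^ 1023)) c E = -1 + 2 ^ 12 + 2 ^ 13 * w := by
  obtain ⟨f, hf⟩ := good_pow 1023
  have h := kap_mod (c := c) hf hE fp_lip (by simp [fp]) fixed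
  have h1 : c 1 = 2046 := by
    rw [c_val hc 1 (by norm_num)]
    simp [cl]
  rw [h1] at h
  obtain ⟨w, hw⟩ := h
  refine ⟨w, ?_⟩
  have : fp 1 = 2049 := by norm_num [fp]
  rw [this] at hw
  linarith

/-- Powers of the multiplier reach `1 + 2 ^ T` modulo `2 ^ (T + 1)`. -/
lemma pow_lift {K w : ℤ} (hK : K = -1 + 2 ^ 12 + 2 ^ 13 * w) (i : ℕ) :
    ∃ z : ℤ, K ^ (2 ^ (i + 1)) = 1 + 2 ^ (i + 13) + 2 ^ (i + 14) * z := by
  induction i with
  | zero =>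
    refine ⟨-1 - w + 2 ^ 10 * (1 + 2 * w) ^ 2, ?_⟩
    rw [hK]
    ring
  | succ i ih =>
    obtain ⟨z, hz⟩ := ih
    refine ⟨z + 2 ^ (i + 11) * (1 + 2 * z) ^ 2, ?_⟩
    rw [show 2 ^ (i + 1 + 1) = 2 ^ (i + 1) * 2 by rw [← pow_succ], pow_mul, hz]
    ring

lemma reach {K w : ℤ} (hK : K = -1 + 2 ^ 12 + 2 ^ 13 * w) {q v : ℤ} (hq : q = 1 + 2 ^ 13 * v)
    (i : ℕ) : ∃ J : ℕ, (2 : ℤ) ^ (13 + i) ∣ K ^ J * q - 1 := by
  induction i with
  | zero => exact ⟨0, v, by rw [hq]; ring⟩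
  | succ i ih =>
    obtain ⟨J, a, ha⟩ := ih
    rcases Int.even_or_odd' a with ⟨b, rfl | rfl⟩
    · exact ⟨J, b, by rw [ha]; ring⟩
    · obtain ⟨z, hz⟩ := pow_lift hK i
      refine ⟨2 ^ (i + 1) + J, ?_⟩
      have h1 : K ^ J * q = 1 + 2 ^ (13 + i) * (2 * b + 1) := by linarith
      have h2 : K ^ (2 ^ (i + 1) + J) * q = (1 + 2 ^ (i + 13) + 2 ^ (i + 14) * z) *
          (1 + 2 ^ (13 + i) * (2 * b + 1)) := by
        rw [pow_add, mul_assoc, h1, hz]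
      refine ⟨1 + b + z + 2 ^ (12 + i) * (2 * b + 1) * (1 + 2 * z), ?_⟩
      rw [h2]
      ring

lemma reach' {K w : ℤ} (hK : K = -1 + 2 ^ 12 + 2 ^ 13 * w) {q v : ℤ} (hq : q = 1 + 2 ^ 13 * v)
    (i : ℕ) : ∃ (J : ℕ) (z : ℤ), K ^ J * q = 1 + 2 ^ (13 + i) + 2 ^ (14 + i) * z := by
  obtain ⟨J, a, ha⟩ := reach hK hq i
  rcases Int.even_or_odd' a with ⟨b, rfl | rfl⟩
  · obtain ⟨z, hz⟩ := pow_lift hK i
    have h1 : K ^ J * q = 1 + 2 ^ (13 + i) * (2 * b) := by linarith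
    have h2 : K ^ (2 ^ (i + 1) + J) * q = (1 + 2 ^ (i + 13) + 2 ^ (i + 14) * z) *
        (1 + 2 ^ (13 + i) * (2 * b)) := by
      rw [pow_add, mul_assoc, h1, hz]
    refine ⟨2 ^ (i + 1) + J, b + z + 2 ^ (13 + i) * b * (1 + 2 * z), ?_⟩
    rw [h2]
    ring
  · refine ⟨J, b, ?_⟩
    have h1 : K ^ J * q = 1 + 2 ^ (13 + i) * (2 * b + 1) := by linarith
    rw [h1]
    ring

/-- The main statement: values `2 ^ 11 * q` with `q` as close to `1` as desired. -/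
theorem unbounded {c : ℕ → ℤ} (hc : SelfSim (fun i => coeff i (B ^ 1023)) c) (i : ℕ) :
    ∃ (n : ℕ) (w : ℤ), 1 ≤ n ∧ c n = 2 ^ 11 * (1 + 2 ^ (13 + i) * (1 + 2 * w)) := by
  obtain ⟨f, hf⟩ := good_pow 1023
  obtain ⟨v, hv⟩ := c34 hc
  obtain ⟨w, hw⟩ := kap_val hc (E := 25 + i) (by omega)
  obtain ⟨J, a, ha⟩ := reach' hw (q := 1 + 2 ^ 13 * v) rfl i
  obtain ⟨n, hn, b, hb⟩ := shift_pow hf hc (25 + i) 34 (by norm_num) J
  refine ⟨n, a + b, by omega, ?_⟩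
  rw [hv] at hb
  have h2 : c n = 2 ^ 11 * (kap (fun i => coeff i (B ^ 1023)) c (25 + i) ^ J *
    (1 + 2 ^ 13 * v)) + 2 ^ (25 + i) * b := by linarith
  rw [h2, ha]
  ring

end Q263.BP
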